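import Pool.Agent.W170.Z3.Stm
import Pool.Agent.H337R2.Count
import Pool.Agent.H337R2.LZ.E1

/-!
# Task E4: the p-adic size of the determinant in a cell (adapted from Pool.Agent.H387R3.ZF.E4pre)
-/

set_option autoImplicit false

open Polynomial Pool.Agent.H337R2

namespace Pool.Agent.W319.Z3

open Pool.Agent.W170.Z3

namespace E4aux

theorem TT_nonneg (y : ℤ) : 0 ≤ TT y := by
  show 0 ≤ Pool.Agent.H336R2.HD.TT y
  unfold Pool.Agent.H336R2.HD.TT
  split_ifs with h
  · positivity
  · exact le_rfl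

theorem cF_norm {n p : ℕ} [Fact p.Prime] (hp2 : 12 * n < p ^ 2) : padicNorm p (cF n) =
    (p : ℚ) ^ (((4 * n / p : ℕ) : ℤ) + ((6 * n / p : ℕ) : ℤ) - 2 * ((7 * n / p : ℕ) : ℤ)) := by
  have hp0 : (p : ℚ) ≠ 0 := by exact_mod_cast (Fact.out : p.Prime).ne_zero
  unfold cF
  rw [padicNorm.div, pow_two]
  push_cast
  rw [padicNorm.mul, padicNorm.mul, norm_factorial (N := 7 * n) (by omega),
    norm_factorial (N := 4 * n) (by omega), norm_factorial (N := 6 * n) (by omega),
    div_eq_mul_inv, ← zpow_add₀ hp0, ← zpow_add₀ hp0, ← zpow_neg, ← zpow_add₀ hp0]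
  congr 1
  push_cast
  ring

end E4aux

open E4aux

/-- class `0` -/
theorem E4_eF0 (hE1f : StE1) {c : Cell} (hc : c.ok = true) {n p : ℕ} (hp : 0 < p)
    (h0 : c.u0 * n < p * c.v0) (h1 : p * c.v1 ≤ c.u1 * n) : eF n p 0 = c.e0 := by
  have f4 := hE1f hc hp h0 h1 (a := 4) (by decide)
  have f5 := hE1f hc hp h0 h1 (a := 5) (by decide)
  have f6 := hE1f hc hp h0 h1 (a := 6) (by decide)
  have f7 := hE1f hc hp h0 h1 (a := 7) (by decide)
  have f12 := hE1f hc hp h0 h1 (a := 12) (by decide)
  have c1 := Pool.Agent.LZ.E1_cnt (n := n) (p := p) (a := 0) (b := 4) (r := 0) hp (by omega) hp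
  have c2 := Pool.Agent.LZ.E1_cnt (n := n) (p := p) (a := 0) (b := 6) (r := 0) hp (by omega) hp
  have c3 := Pool.Agent.LZ.E1_cnt (n := n) (p := p) (a := 5) (b := 12) (r := 0) hp (by omega) hp
  simp only [Nat.zero_le, if_true, zero_mul, Nat.zero_div, zero_add] at c1 c2 c3
  unfold eF Cell.e0
  rw [c1, c2, c3, f4, f5, f6, f7, f12]
  push_cast
  ring

/-- from the integer exponent to the real statement -/
theorem E4_fin {c : Cell} {n p q : ℕ} {x : ℚ} (hp : p.Prime) {z K : ℤ}
    (h : padicNorm p ((q : ℚ) ^ (2 * n) * DET n x (2 * n)) ≤ (p : ℚ) ^ z)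
    (hz : z ≤ c.AB.1 * n + c.AB.2 * p + K) :
    ((padicNorm p ((q : ℚ) ^ (2 * n) * DET n x (2 * n)) : ℚ) : ℝ) ≤
      (p : ℝ) ^ ((c.AB.1 : ℝ) * n + c.AB.2 * p + K) := by
  have h1 : ((padicNorm p ((q : ℚ) ^ (2 * n) * DET n x (2 * n)) : ℚ) : ℝ) ≤
      (((p : ℚ) ^ z : ℚ) : ℝ) := by
    exact_mod_cast h
  refine h1.trans ?_
  rw [Rat.cast_zpow, Rat.cast_natCast, ← Real.rpow_intCast]
  refine Real.rpow_le_rpow_of_exponent_le (by exact_mod_cast hp.one_lt.le) ?_
  exact_mod_cast hz

/-- the cell estimate -/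
theorem E4_of (hD3 : StD3) (hE1f : StE1) (hE2 : StE2) : StE4 := by
  classical
  intro c hc
  refine ⟨((TT (1 - c.e0 - c.mu) : ℤ) : ℝ), ?_⟩
  intro n hn p hp hp2 h0 h1 q x hx
  have : Fact p.Prime := ⟨hp⟩
  have he0 := E4_eF0 hE1f hc hp.pos h0 h1
  by_cases hfull : c.full = true
  · -- all classes charged
    have hd := hD3 hn hp2 q x hx (2 * n) c.mu (Finset.range p) (Finset.Subset.refl _)
      (fun k _ => Or.inl (Finset.mem_range.2 (Nat.mod_lt _ hp.pos)))
    refine E4_fin hp hd ?_
    have hs := hE2 hc hn hp h0 h1 (fun κ => TT (1 - eF n p κ - c.mu)) (TT (1 - c.e0 - c.mu))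
      (TT_nonneg _) (le_of_eq (by rw [he0]))
      (by
        intro r _ _
        have hcost : c.cost (eF n p r) ((cnt p (4 * n + 1) (12 * n) r : ℕ) : ℤ) =
            TT (1 - eF n p r - c.mu) := by
          unfold Cell.cost
          rw [if_pos hfull]
        exact le_of_eq hcost.symm)
    push_cast
    linarith
  · -- not full
    have hmu : (c.fl 4 : ℤ) + (c.fl 6 : ℤ) - 2 * (c.fl 7 : ℤ) ≤ c.mu := by
      have hc' := hc
      unfold Cell.ok at hc'
      rw [Bool.and_eq_true] at hc'
      have h2 := hc'.2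
      rw [Bool.or_eq_true, decide_eq_true_eq] at h2
      rcases h2 with h2 | h2
      · exact absurd h2 hfull
      · exact h2
    have f4 := hE1f hc hp.pos h0 h1 (a := 4) (by decide)
    have f6 := hE1f hc hp.pos h0 h1 (a := 6) (by decide)
    have f7 := hE1f hc hp.pos h0 h1 (a := 7) (by decide)
    set S : Finset ℕ := (Finset.range p).filter fun κ => 2 ≤ cnt p (4 * n + 1) (12 * n) κ with hS
    have hpnat : (1 : ℚ) ≤ (p : ℚ) := by exact_mod_cast hp.one_lt.le
    have hd := hD3 hn hp2 q x hx (2 * n) c.mu S (Finset.filter_subset _ _)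
      (by
        intro k hk
        by_cases hkS : k % p ∈ S
        · exact Or.inl hkS
        · right
          have hkI := Finset.mem_Icc.1 hk
          have hkm : (p : ℤ) ∣ (k : ℤ) - ((k % p : ℕ) : ℤ) := by
            refine ⟨((k / p : ℕ) : ℤ), ?_⟩
            have := Nat.div_add_mod k p
            have h2 : (k : ℤ) = (p : ℤ) * ((k / p : ℕ) : ℤ) + ((k % p : ℕ) : ℤ) := by
              exact_mod_cast this.symm
            linarith
          -- no other site in `(4n, 12n]` in the class
          have hno : ∀ k' : ℕ, 4 * n + 1 ≤ k' → k' ≤ 12 * n → k' ≠ k →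
              ¬ (p : ℤ) ∣ (k' : ℤ) - k := by
            intro k' hk1 hk2 hne hdvd
            apply hkS
            rw [hS, Finset.mem_filter, Finset.mem_range]
            refine ⟨Nat.mod_lt _ hp.pos, ?_⟩
            have hk'm : (p : ℤ) ∣ (k' : ℤ) - ((k % p : ℕ) : ℤ) := by
              have h2 := dvd_add hdvd hkm
              have e : ((k' : ℤ) - k) + ((k : ℤ) - ((k % p : ℕ) : ℤ)) =
                  (k' : ℤ) - ((k % p : ℕ) : ℤ) := by ring
              rwa [e] at h2
            have hsub : ({k, k'} : Finset ℕ) ⊆ (Finset.Icc (4 * n + 1) (12 * n)).filter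
                (fun m : ℕ => (p : ℤ) ∣ (m : ℤ) - ((k % p : ℕ) : ℤ)) := by
              intro x hx2
              rw [Finset.mem_insert, Finset.mem_singleton] at hx2
              rw [Finset.mem_filter]
              rcases hx2 with rfl | rfl
              · exact ⟨Finset.mem_Icc.2 ⟨by omega, hkI.2⟩, hkm⟩
              · exact ⟨Finset.mem_Icc.2 ⟨hk1, hk2⟩, hk'm⟩
            have hcard := Finset.card_le_card hsub
            rw [Finset.card_pair (Ne.symm hne)] at hcard
            exact hcard
          refine ⟨?_, ?_, ?_⟩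
          · rw [cF_norm hp2, f4, f6, f7]
            exact zpow_le_zpow_right₀ hpnat hmu
          · by_contra hlt
            push Not at hlt
            have hpp := hp.pos
            refine hno (k - p) (by omega) (by omega) (by omega) ?_
            refine ⟨-1, ?_⟩
            have : ((k - p : ℕ) : ℤ) = (k : ℤ) - p := by
              rw [Nat.cast_sub (by omega)]
            rw [this]
            ring
          · intro k' hk' hne
            have hk'I := Finset.mem_Icc.1 hk'
            exact hno k' (by omega) hk'I.2 hne)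
    refine E4_fin hp hd ?_
    have hsum : ∑ κ ∈ S, TT (1 - eF n p κ - c.mu) =
        ∑ κ ∈ Finset.range p, if 2 ≤ cnt p (4 * n + 1) (12 * n) κ then TT (1 - eF n p κ - c.mu)
          else 0 := by
      rw [hS, Finset.sum_filter]
    rw [hsum]
    have hs := hE2 hc hn hp h0 h1 (fun κ => if 2 ≤ cnt p (4 * n + 1) (12 * n) κ then
        TT (1 - eF n p κ - c.mu) else 0) (TT (1 - c.e0 - c.mu)) (TT_nonneg _)
      (by
        show (if 2 ≤ cnt p (4 * n + 1) (12 * n) 0 then TT (1 - eF n p 0 - c.mu) else 0) ≤ _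
        split_ifs
        · rw [he0]
        · exact TT_nonneg _)
      (by
        intro r _ hr
        show (if 2 ≤ cnt p (4 * n + 1) (12 * n) r then TT (1 - eF n p r - c.mu) else 0) ≤ _
        unfold Cell.cost
        rw [if_neg hfull]
        split_ifs with h2 h3 h3
        · exact le_rfl
        · exact absurd (by exact_mod_cast h2) h3
        · exact absurd (by exact_mod_cast h3) h2
        · exact le_rfl)
    push_cast at hs ⊢
    linarith

end Pool.Agent.W319.Z3
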